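import Mathlib
import Pool.Agent.R222.Dust.Defs
import Pool.Agent.R222.Dust.Main

/-!
# Sets with one null projection are c-removable

A closed planar set which is intervally thin in some direction `v`, and whose projection along some
other direction `w` is Lebesgue null, is c-removable. This covers all products `A × B` of closed
sets of the line with empty interior whose planar measure is zero.
-/

set_option autoImplicit false

open MeasureTheory

namespace Pool.Agent.Results.MP_034ae1_an.NullProjection

open Pool.Agent.R222.Dust

/-- A closed set `E` which is intervally thin in direction `v` and has a null projection along a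
direction `w` that is not parallel to `v` is c-removable. -/
theorem result (E : Set (ℝ × ℝ)) (hE : IsClosed E) (w v : ℝ × ℝ)
    (hdet : w.1 * v.2 - w.2 * v.1 ≠ 0)
    (hnull : volume ((fun z : ℝ × ℝ => w.1 * z.2 - w.2 * z.1) '' E) = 0)
    (hthin : IntervallyThin E v) : CRemovable E :=
  cRemovable_of_null_proj hE w v hdet hnull hthin

end Pool.Agent.Results.MP_034ae1_an.NullProjection
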